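import Pool.Agent.Y771.NF.FinH

/-!
# The data of the starting theory for completed L-functions of newforms

The first half of the proof of `hdx_all` of the starting files (`Pool.Agent.Y671.GL`).
-/

set_option autoImplicit false

namespace Pool.Agent.P8H15.LZ

open Complex Filter Topology MeasureTheory Set
open scoped ComplexConjugate
open Pool.Agent.H24R2.JP (Om)
open Pool.Agent.Y671.LD
open Pool.Agent.Y671.GL
open Pool.Agent.W169.HF (heat Slow)

theorem hd_of {κ : ℝ} {H X Z : ℂ → ℂ} (hκ : 1 / 2 ≤ κ) (hκ5 : κ ≤ 5) (hG : GG κ H X Z)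
    (hst : ∀ s : ℂ, X s = 0 → |s.re| ≤ 1 / 2) (hH : HugeX X) :
    ∃ (FT : ℝ → ℂ → ℂ) (hh : ℝ → ℝ), HD κ (fun z => X (z / ((2 * κ : ℝ) : ℂ))) FT hh := by
  have hsz : S_HSZ := Pool.Agent.Y412.GL.HSZ.hsz
  have hht : S_HHT := Pool.Agent.Y275.GL.hht
  have hκ0 : 0 < κ := by linarith
  have hC := hG.cg.cf
  have hXd := hC.diff
  obtain ⟨b, hb2⟩ : ∃ b : ℝ, b = 2 * κ := ⟨_, rfl⟩
  have hb : 0 < b := by rw [hb2]; positivity
  have hb1 : 1 ≤ b := by rw [hb2]; linarith
  have hbc : (b : ℂ) ≠ 0 := by exact_mod_cast hb.ne'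
  obtain ⟨F, hF⟩ : ∃ F : ℂ → ℂ, F = fun z => X (z / (2 * κ : ℝ)) := ⟨_, rfl⟩
  have hFb : F = fun z => X (z / (b : ℂ)) := by rw [hF, hb2]
  have hFd : Differentiable ℂ F := by rw [hFb]; exact hXd.comp (by fun_prop)
  obtain ⟨hh, hhd⟩ : ∃ hh : ℝ → ℝ, hh = (fun t : ℝ => if 0 < ‖H (I * t / (2 * κ))‖ then
    ‖H (I * t / (2 * κ))‖ else 1) := ⟨_, rfl⟩
  obtain ⟨h1, h2, h3, h4, h5, h6, h7⟩ := hsz κ H X Z hκ hG.cg F hh (by rw [hF]; push_cast; rfl) hhd
  obtain ⟨K, hK, hslow⟩ := hG.cg.slow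
  obtain ⟨X0, T0, hX0, hT0, hhuge⟩ := hH
  have hne : ∃ z, X z ≠ 0 := by
    obtain ⟨K1, T1, hT1, h6'⟩ := h6 (10 * κ)
    have h8 := (h6' T1 ((10 * κ : ℝ) : ℂ) le_rfl
      (by rw [Complex.norm_real, Real.norm_eq_abs, abs_of_pos (by positivity)])
      (by rw [Complex.ofReal_re])).1
    rw [hFb] at h8
    exact ⟨_, h8⟩
  obtain ⟨g0, gd, gi, gs, gc⟩ := hht X (slow_of hXd hK hslow) hC.symm hne hst
  have hHD : HD κ F (FTx b X) hh := by
    refine ⟨hκ, hκ5, hFd, ?_, h1, h2, h3, h4, h5, h6, ?_, ?_, ?_, ?_, ?_, ?_, ?_, ?_⟩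
    · intro z
      rw [hF]
      exact symm_scale hC.symm z
    · funext z
      show heat (0 / b ^ 2) X (z / b) = F z
      rw [zero_div, g0, hFb]
    · intro τ hτ
      have h8 := gd (τ / b ^ 2) (by positivity)
      have h9 : FTx b X τ = heat (τ / b ^ 2) X ∘ (fun z : ℂ => z / (b : ℂ)) := rfl
      rw [h9]
      exact h8.comp (by fun_prop)
    · intro τ z hτ
      have h8 := gi (τ / b ^ 2) (z / b) (by positivity)
      have h9 : (fun v : ℝ => ((Real.exp (-v ^ 2) : ℝ) : ℂ) * F (z + ((2 * Real.sqrt τ * v : ℝ) : ℂ))) =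
          fun v : ℝ => ((Real.exp (-v ^ 2) : ℝ) : ℂ) *
            X (z / b + ((2 * Real.sqrt (τ / b ^ 2) * v : ℝ) : ℂ)) := by
        funext v
        rw [hFb]
        simp only
        rw [int_eq hb τ hτ]
      rw [h9]
      exact ⟨h8, rfl⟩
    · intro τ s hτ hs
      have h8 := gs (τ / b ^ 2) (s / b) (by positivity) hs
      rw [Complex.div_ofReal_re, abs_div, abs_of_pos hb, div_le_iff₀ hb] at h8
      rw [hb2] at h8
      linarith
    · refine ⟨2 * b ^ 2 * X0, max (b * T0) (b ^ 2), ?_, ?_, ?_⟩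
      · nlinarith
      · refine le_trans ?_ (le_max_left _ _)
        nlinarith
      intro t τ s ht hτ hτ8 hX hs hbad
      have ht1 : b * T0 ≤ t := (le_max_left _ _).trans ht
      have ht2 : b ^ 2 ≤ t := (le_max_right _ _).trans ht
      have htp : 0 < t := lt_of_lt_of_le (by positivity) ht1
      have hlt : 2 * Real.log b ≤ Real.log t := by
        have := Real.log_le_log (by positivity) ht2
        rw [Real.log_pow] at this
        exact_mod_cast this
      have hb21 : 1 ≤ b ^ 2 := by nlinarith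
      rw [badH_scale hb s (gd _ (by positivity))] at hbad
      refine hhuge (t / b) (τ / b ^ 2) (s / b) ?_ (by positivity) ?_ ?_ ?_ hbad
      · rw [le_div_iff₀ hb]; linarith
      · rw [div_le_iff₀ (by positivity)]; nlinarith
      · rw [Real.log_div htp.ne' hb.ne']
        have h8 : Om t = Real.log t / 2 := rfl
        rw [h8] at hX
        have h9 : τ * Real.log t / 2 ≤ τ * (Real.log t - Real.log b) := by nlinarith
        rw [div_mul_eq_mul_div, le_div_iff₀ (by positivity)]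
        linarith
      · rw [Complex.div_ofReal_im, hs]
    · intro T1
      obtain ⟨C, hCl⟩ := gc |T1|
      refine ⟨C, ?_⟩
      intro τ hτ hτ8 S hS
      classical
      have hb21 : 1 ≤ b ^ 2 := by nlinarith
      have h8 := hCl (τ / b ^ 2) (by positivity) (by rw [div_le_iff₀ (by positivity)]; nlinarith)
        (S.image (fun s => s / (b : ℂ))) (by
          intro w hw
          rw [Finset.mem_image] at hw
          obtain ⟨s, hs, rfl⟩ := hw
          obtain ⟨k1, k2⟩ := hS s hs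
          refine ⟨?_, k2⟩
          rw [Complex.div_ofReal_im, abs_div, abs_of_pos hb]
          exact (div_le_self (abs_nonneg _) hb1).trans (k1.trans (le_abs_self _)))
      rw [Finset.sum_image (by
        intro x _ y _ hxy
        exact (div_left_inj' hbc).1 hxy)] at h8
      refine le_trans (le_of_eq ?_) h8
      refine Finset.sum_congr rfl ?_
      intro s _
      have h9 := order_scale hb (gd (τ / b ^ 2) (by positivity)) (s / b)
      rw [mul_div_cancel₀ _ hbc] at h9
      exact_mod_cast h9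
    · rw [hF]
      exact good_scale hκ (by linarith [show (5 : ℝ) ≤ 10 ^ 40 by norm_num]) hG.good
    · rw [hF]
      exact top_scale hXd hκ hG.top
  refine ⟨FTx b X, hh, ?_⟩
  rw [hF] at hHD
  exact hHD


end Pool.Agent.P8H15.LZ
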