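import Pool.Agent.P8H15.LZ.Prof
import Pool.Agent.TH803.LU.ULp
import Pool.Agent.Y46.LD.UNG
import Pool.Agent.Y494.LD.Near

/-!
# Laguerre coefficients at good points
-/

set_option autoImplicit false

namespace Pool.Agent.P8H15.LZ

open Complex Filter Topology MeasureTheory Set
open scoped ComplexConjugate
open Pool.Agent.H24R2.JP (Om)
open Pool.Agent.H24R2.DZ (ra NN)
open Pool.Agent.Y671.LD (FarOK HD)
open Pool.Agent.W169.HF (Pf)
open Pool.Agent.TH803.LU (LC LC_scale FE0)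

theorem hmul (a b c : ℝ) : a * Real.exp b * Real.exp c = a * Real.exp (b + c) := by
  rw [mul_assoc, ← Real.exp_add]

/-- the profile from a bound for the logarithmic derivative to the right and a bound near the line -/
theorem pf_of {f : ℂ → ℂ} (hd : Differentiable ℂ f) (hs : ∀ z : ℂ, f (-(conj z)) = conj (f z))
    {ε0 ϑ R R1 ℓ η κ δ : ℝ} (hε0 : ε0 ≤ ϑ) (hϑ : 0 ≤ ϑ) (hϑ1 : ϑ ≤ 1) (hR : 1 ≤ R)
    (hR1 : 2 * R ≤ R1) (hℓ : 0 < ℓ) (hη : 0 ≤ η)
    (hfar : ∀ z : ℂ, ε0 ≤ z.re → ‖z‖ ≤ R1 → f z ≠ 0 ∧ ‖logDeriv f z - (ℓ : ℂ)‖ ≤ η * ℓ)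
    (hnear : ∀ z : ℂ, |z.re| ≤ ε0 → ‖z‖ ≤ R1 → ‖f z‖ ≤ ‖f 1‖ * Real.exp (-((1 - δ) * ℓ)))
    (hδ : δ ≤ ϑ + κ) (hκ : η * (4 * R) ≤ κ) :
    0 < ‖f 1‖ * Real.exp (-ℓ) ∧ Pf κ ϑ R ℓ (‖f 1‖ * Real.exp (-ℓ)) f := by
  have h1re : ε0 ≤ (1 : ℂ).re := by rw [one_re]; linarith
  have h1n : ‖(1 : ℂ)‖ ≤ R1 := by rw [norm_one]; linarith
  have hf1 := (hfar 1 h1re h1n).1
  have hG : 0 < ‖f 1‖ * Real.exp (-ℓ) := mul_pos (norm_pos_iff.2 hf1) (Real.exp_pos _)
  have hnm : ∀ u : ℂ, |u.re| ≤ R → |u.im| ≤ R → ‖u‖ ≤ 2 * R := fun u a b => by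
    have := Complex.norm_le_abs_re_add_abs_im u
    linarith
  have hdist : ∀ u : ℂ, |u.re| ≤ R → |u.im| ≤ R → ‖u - 1‖ ≤ 4 * R := fun u a b => by
    refine (norm_sub_le _ _).trans ?_
    rw [norm_one]
    linarith [hnm u a b]
  have hηR : ∀ u : ℂ, |u.re| ≤ R → |u.im| ≤ R → η * ℓ * ‖u - 1‖ ≤ κ * ℓ := fun u a b => by
    calc η * ℓ * ‖u - 1‖ ≤ η * ℓ * (4 * R) := by
          have := hdist u a b
          gcongr
      _ = η * (4 * R) * ℓ := by ring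
      _ ≤ κ * ℓ := by gcongr
  have hup : ∀ u : ℂ, ε0 ≤ u.re → u.re ≤ R → |u.re| ≤ R → |u.im| ≤ R →
      ‖f u‖ ≤ ‖f 1‖ * Real.exp (-ℓ) * Real.exp (ℓ * u.re + κ * ℓ) := fun u a b c d => by
    have h2 := Pool.Agent.Y46.LD.seg (Pool.Agent.Y46.LD.conv_far R1 ε0) hd (A := ℓ) (B := η * ℓ)
      (fun w hw => hfar w hw.1 hw.2) (u := 1) (v := u) ⟨h1re, h1n⟩ ⟨a, (hnm u c d).trans hR1⟩
    refine h2.trans ?_
    rw [hmul]
    apply mul_le_mul_of_nonneg_left _ (norm_nonneg _)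
    apply Real.exp_le_exp.2
    have := hηR u c d
    rw [one_re]
    linarith
  refine ⟨hG, fun u a b c => ?_, fun u a b => ?_, fun u a b c => ?_⟩
  · have hre : |u.re| ≤ R := by rw [abs_of_nonneg (hϑ.trans a)]; exact b
    have h2 := Pool.Agent.Y46.LD.seg (Pool.Agent.Y46.LD.conv_far R1 ε0) hd (A := ℓ) (B := η * ℓ)
      (fun w hw => hfar w hw.1 hw.2) (u := u) (v := 1) ⟨hε0.trans a, (hnm u hre c).trans hR1⟩
      ⟨h1re, h1n⟩
    rw [norm_sub_rev] at h2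
    have h3 := hηR u hre c
    have h4 : ‖f 1‖ ≤ ‖f u‖ * Real.exp (ℓ * (1 - u.re) + κ * ℓ) := by
      refine h2.trans ?_
      apply mul_le_mul_of_nonneg_left _ (norm_nonneg _)
      apply Real.exp_le_exp.2
      rw [one_re]
      linarith
    calc ‖f 1‖ * Real.exp (-ℓ) * Real.exp (ℓ * u.re - κ * ℓ)
        ≤ ‖f u‖ * Real.exp (ℓ * (1 - u.re) + κ * ℓ) * Real.exp (-ℓ) * Real.exp (ℓ * u.re - κ * ℓ) := by
          gcongr
      _ = ‖f u‖ := by
          rw [hmul, hmul]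
          have : ℓ * (1 - u.re) + κ * ℓ + (-ℓ + (ℓ * u.re - κ * ℓ)) = 0 := by ring
          rw [this, Real.exp_zero, mul_one]
  · rcases le_or_gt |u.re| ε0 with h | h
    · refine (hnear u h ((hnm u a b).trans hR1)).trans ?_
      rw [hmul]
      apply mul_le_mul_of_nonneg_left _ (norm_nonneg _)
      apply Real.exp_le_exp.2
      have h2 : δ * ℓ ≤ (ϑ + κ) * ℓ := by gcongr
      have h3 : ℓ * ϑ ≤ ℓ * max |u.re| ϑ := by
        gcongr
        exact le_max_right _ _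
      linarith
    · have key : ∀ v : ℂ, |v.re| ≤ R → |v.im| ≤ R → ε0 ≤ v.re → 0 ≤ v.re →
          ‖f v‖ ≤ ‖f 1‖ * Real.exp (-ℓ) * Real.exp (ℓ * max |v.re| ϑ + κ * ℓ) := fun v a b c e => by
        refine (hup v c ((le_abs_self _).trans a) a b).trans ?_
        apply mul_le_mul_of_nonneg_left _ hG.le
        apply Real.exp_le_exp.2
        have h3 : ℓ * v.re ≤ ℓ * max |v.re| ϑ := by
          gcongr
          exact (le_abs_self _).trans (le_max_left _ _)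
        linarith
      rcases le_total 0 u.re with h0 | h0
      · rw [abs_of_nonneg h0] at h
        exact key u a b h.le h0
      · rw [abs_of_nonpos h0] at h
        have h2 := key (-(conj u)) (by simpa using a) (by simpa using b) (by simpa using h.le)
          (by simpa using h0)
        rw [hs, Complex.norm_conj] at h2
        have h3 : |(-(conj u)).re| = |u.re| := by simp
        rw [h3] at h2
        exact h2
  · have hre : |u.re| ≤ R := by rw [abs_of_nonneg (hϑ.trans a)]; exact b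
    refine (hfar u (hε0.trans a) ((hnm u hre c).trans hR1)).2.trans ?_
    have h3 : η ≤ κ := by nlinarith
    gcongr

theorem fe0_of {f : ℂ → ℂ} (hs : ∀ z : ℂ, f (-(conj z)) = conj (f z)) : FE0 f := by
  refine ⟨1, norm_one, fun u => ?_⟩
  have h := hs (-(conj u))
  rw [map_neg, Complex.conj_conj, neg_neg] at h
  rw [one_mul]
  exact h

/-- at points which are good at the scale `n` the Laguerre coefficient of order `n` is positive -/
theorem nn_pos : ∃ η a0 : ℝ, 0 < η ∧ 1 ≤ a0 ∧ ∀ (n : ℕ) (f : ℂ → ℂ), a0 ≤ n → NN n η f → 0 < LC f n := by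
  obtain ⟨κ0, ℓ0, hκ0, hℓ0, H⟩ := prof_posR (ϑ0 := 1 / 10) (g := 1 / 2) (X := 1) (by norm_num)
    (by norm_num) le_rfl
  refine ⟨κ0 / 14, ℓ0, by positivity, hℓ0, fun n f hn h => ?_⟩
  have hn0 : (0 : ℝ) < n := by linarith
  obtain ⟨hG, hpf⟩ := pf_of h.diff h.symm (ε0 := 1 / 1000) (ϑ := 1 / 10) (R := 3 * 1 + 1 / 2) (R1 := 20)
    (ℓ := n) (η := κ0 / 14) (κ := κ0) (δ := 1 / 10) (by norm_num) (by norm_num) (by norm_num)
    (by norm_num) (by norm_num) hn0 (by positivity) (fun z h1 h2 => by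
      have := h.far z h1 h2
      exact_mod_cast this) (fun z h1 h2 => by
      have := h.near z h1 h2
      refine this.trans (le_of_eq ?_)
      congr 2
      ring) (by linarith) (by linarith)
  exact H n _ f n hn hG h.diff (fe0_of h.symm) hpf (by linarith) (by linarith)

theorem symm_at {F : ℂ → ℂ} (hs : ∀ z : ℂ, F (-(conj z)) = conj (F z)) (t : ℝ) (z : ℂ) :
    (fun w : ℂ => F (I * t + w)) (-(conj z)) = conj ((fun w : ℂ => F (I * t + w)) z) :=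
  Pool.Agent.Y46.LD.xsymm hs t z

/-- at points where the logarithmic derivative is as expected at distance `ε0` the Laguerre coefficients of order
`g log t ≤ n ≤ K log t` are positive -/
theorem far_pos {B : ℝ} {F : ℂ → ℂ} {FT : ℝ → ℂ → ℂ} {h : ℝ → ℝ} (hD : HD B F FT h) {g K : ℝ} (hg : 0 < g)
    (hg1 : g ≤ 1 / 2) (hK : 1 ≤ K) : ∃ R ε0 η T0 : ℝ, 1 ≤ R ∧ 0 < ε0 ∧ 0 < η ∧ 2 ≤ T0 ∧
    ∀ (t : ℝ) (n : ℕ), T0 ≤ t → FarOK F R ε0 η t → 2 * g * Om t ≤ n → (n : ℝ) ≤ K * Om t →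
      0 < LC (fun u => F (I * t + u)) n := by
  obtain ⟨κ0, ℓ0, hκ0, hℓ0, H⟩ := prof_posR (ϑ0 := g) (g := g) (X := K) hg.le hg hK
  obtain ⟨R, hR⟩ : ∃ R : ℝ, R = 3 * K + g := ⟨_, rfl⟩
  have hR1 : 1 ≤ R := by rw [hR]; linarith
  obtain ⟨ε, hε⟩ : ∃ ε : ℝ, ε = min g κ0 := ⟨_, rfl⟩
  have hε0 : 0 < ε := by rw [hε]; exact lt_min hg hκ0
  have hεg : ε ≤ g := by rw [hε]; exact min_le_left _ _
  have hεκ : ε ≤ κ0 := by rw [hε]; exact min_le_right _ _
  obtain ⟨R', η1, T1, hR', hη1, hT1, hnear⟩ := Pool.Agent.Y494.LD.near B F FT h hD (2 * R) ε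
    (by linarith) hε0
  obtain ⟨η, hη⟩ : ∃ η : ℝ, η = min η1 (κ0 / (4 * R)) := ⟨_, rfl⟩
  have hη0 : 0 < η := by rw [hη]; exact lt_min hη1 (by positivity)
  have hηη1 : η ≤ η1 := by rw [hη]; exact min_le_left _ _
  have hηκ : η * (4 * R) ≤ κ0 := by
    have : η ≤ κ0 / (4 * R) := by rw [hη]; exact min_le_right _ _
    rwa [le_div_iff₀ (by positivity)] at this
  refine ⟨max R' (2 * R), ε, η, max T1 (Real.exp (2 * ℓ0)), ?_, hε0, hη0, hT1.trans (le_max_left _ _), ?_⟩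
  · exact hR'.trans (le_max_left _ _)
  intro t n ht hfar hn1 hn2
  have ht1 : T1 ≤ t := (le_max_left _ _).trans ht
  have ht2 : Real.exp (2 * ℓ0) ≤ t := (le_max_right _ _).trans ht
  have ht0 : 2 ≤ t := hT1.trans ht1
  have hOm : ℓ0 ≤ Om t := by
    have h1 : 2 * ℓ0 ≤ Real.log t := by
      rw [Real.le_log_iff_exp_le (by linarith)]
      exact ht2
    have h2 : Om t = Real.log t / 2 := rfl
    rw [h2]
    linarith
  have hOm0 : 0 < Om t := by linarith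
  have hfar' : FarOK F R' ε η1 t := Pool.Agent.Y46.LD.FarOK_mono ht0 hfar (le_max_left _ _) le_rfl hηη1
  have hnear' := hnear t ε ht1 le_rfl (hεg.trans hg1) hfar'
  obtain ⟨hG, hpf⟩ := pf_of (f := fun w : ℂ => F (I * t + w)) (Pool.Agent.Y46.LD.fdiff hD.diff t)
    (symm_at hD.symm t) (ε0 := ε) (ϑ := g) (R := R) (R1 := 2 * R) (ℓ := Om t) (η := η) (κ := κ0)
    (δ := ε + ε) hεg hg.le (by linarith) hR1 le_rfl hOm0 hη0.le (fun z h1 h2 => by
      rw [Pool.Agent.Y46.LD.fld]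
      exact hfar z h1 (h2.trans (le_max_right _ _))) (fun z h1 h2 => by
      refine (hnear' z h1 h2).trans (le_of_eq ?_)
      congr 2
      ring) (by linarith) hηκ
  rw [hR] at hpf
  exact H (Om t) _ _ n hOm hG (Pool.Agent.Y46.LD.fdiff hD.diff t) (fe0_of (symm_at hD.symm t)) hpf
    (by linarith) hn2

end Pool.Agent.P8H15.LZ
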