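import Mathlib

/-!
# Summation of exponentially small exceptional sets
-/

set_option autoImplicit false

namespace Pool.Agent.P8H15.LZ

open MeasureTheory Set Filter Topology

theorem dyadic {E : ℕ → Set ℝ} {c C T1 : ℝ} {n1 : ℕ} (hc : 0 < c) (hC : 0 < C) (hT1 : 1 ≤ T1)
    (hwin : ∀ n : ℕ, n1 ≤ n → ∀ T : ℝ, T1 ≤ T →
      volume {t : ℝ | T / 2 ≤ t ∧ t ≤ T ∧ t ∈ E n} ≤ ENNReal.ofReal (C * T * Real.exp (-(c * n))))
    (hlow : ∀ n : ℕ, n1 ≤ n → ∀ t : ℝ, 0 ≤ t → t ≤ T1 → t ∉ E n) :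
    ∃ C' : ℝ, 0 < C' ∧ ∀ (n : ℕ) (T : ℝ), 0 ≤ T →
      volume {t : ℝ | 0 ≤ t ∧ t ≤ T ∧ ∃ m : ℕ, n ≤ m ∧ t ∈ E m} ≤
        ENNReal.ofReal (C' * T * Real.exp (-(c * n))) := by
  have hT10 : 0 < T1 := by linarith
  have step1 : ∀ n : ℕ, n1 ≤ n → ∀ j : ℕ, volume {t : ℝ | 0 ≤ t ∧ t ≤ 2 ^ j * T1 ∧ t ∈ E n} ≤
      ENNReal.ofReal (2 * C * (2 ^ j * T1) * Real.exp (-(c * n))) := by
    intro n hn j
    induction j with
    | zero =>
      have : {t : ℝ | 0 ≤ t ∧ t ≤ 2 ^ 0 * T1 ∧ t ∈ E n} = ∅ := by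
        rw [Set.eq_empty_iff_forall_notMem]
        rintro t ⟨h1, h2, h3⟩
        exact hlow n hn t h1 (by linarith) h3
      rw [this]
      simp
    | succ j ih =>
      have hsub : {t : ℝ | 0 ≤ t ∧ t ≤ 2 ^ (j + 1) * T1 ∧ t ∈ E n} ⊆
          {t : ℝ | 0 ≤ t ∧ t ≤ 2 ^ j * T1 ∧ t ∈ E n} ∪
          {t : ℝ | (2 ^ (j + 1) * T1) / 2 ≤ t ∧ t ≤ 2 ^ (j + 1) * T1 ∧ t ∈ E n} := by
        rintro t ⟨h1, h2, h3⟩
        rcases le_total t (2 ^ j * T1) with h | h
        · exact Or.inl ⟨h1, h, h3⟩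
        · refine Or.inr ⟨?_, h2, h3⟩
          rw [pow_succ]
          linarith
      have h2 := hwin n hn (2 ^ (j + 1) * T1) (by
        have : (1 : ℝ) ≤ 2 ^ (j + 1) := one_le_pow₀ (by norm_num)
        nlinarith)
      refine (measure_mono hsub).trans ((measure_union_le _ _).trans ((add_le_add ih h2).trans ?_))
      rw [← ENNReal.ofReal_add (by positivity) (by positivity)]
      apply ENNReal.ofReal_le_ofReal
      apply le_of_eq
      rw [pow_succ]
      ring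
  have step2 : ∀ n : ℕ, n1 ≤ n → ∀ T : ℝ, 0 ≤ T → volume {t : ℝ | 0 ≤ t ∧ t ≤ T ∧ t ∈ E n} ≤
      ENNReal.ofReal (4 * C * T * Real.exp (-(c * n))) := by
    intro n hn T hT
    rcases le_total T T1 with h | h
    · have : {t : ℝ | 0 ≤ t ∧ t ≤ T ∧ t ∈ E n} = ∅ := by
        rw [Set.eq_empty_iff_forall_notMem]
        rintro t ⟨h1, h2, h3⟩
        exact hlow n hn t h1 (h2.trans h) h3
      rw [this]
      simp
    · obtain ⟨j, hj1, hj2⟩ := exists_nat_pow_near (x := T / T1) (y := 2)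
        (by rw [one_le_div hT10]; exact h) (by norm_num)
      rw [le_div_iff₀ hT10] at hj1
      rw [div_lt_iff₀ hT10] at hj2
      have hsub : {t : ℝ | 0 ≤ t ∧ t ≤ T ∧ t ∈ E n} ⊆
          {t : ℝ | 0 ≤ t ∧ t ≤ 2 ^ (j + 1) * T1 ∧ t ∈ E n} := by
        rintro t ⟨h1, h2, h3⟩
        exact ⟨h1, h2.trans hj2.le, h3⟩
      refine (measure_mono hsub).trans ((step1 n hn (j + 1)).trans ?_)
      apply ENNReal.ofReal_le_ofReal
      have h3 : 2 ^ (j + 1) * T1 ≤ 2 * T := by rw [pow_succ]; linarith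
      calc 2 * C * (2 ^ (j + 1) * T1) * Real.exp (-(c * n)) ≤ 2 * C * (2 * T) * Real.exp (-(c * n)) := by
            gcongr
        _ = _ := by ring
  have he : Real.exp (-c) < 1 := by
    rw [Real.exp_lt_one_iff]
    linarith
  have he0 := Real.exp_pos (-c)
  refine ⟨max (Real.exp (c * n1)) (4 * C / (1 - Real.exp (-c))), lt_max_of_lt_left (Real.exp_pos _), ?_⟩
  intro n T hT
  rcases lt_or_ge n n1 with hn | hn
  · have hsub : {t : ℝ | 0 ≤ t ∧ t ≤ T ∧ ∃ m : ℕ, n ≤ m ∧ t ∈ E m} ⊆ Icc 0 T := by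
      rintro t ⟨h1, h2, -⟩
      exact ⟨h1, h2⟩
    refine (measure_mono hsub).trans ?_
    rw [Real.volume_Icc, sub_zero]
    apply ENNReal.ofReal_le_ofReal
    have h1 : 1 ≤ Real.exp (c * n1) * Real.exp (-(c * n)) := by
      rw [← Real.exp_add]
      apply Real.one_le_exp
      have : (n : ℝ) ≤ n1 := by exact_mod_cast hn.le
      nlinarith
    calc T = 1 * T := by ring
      _ ≤ (Real.exp (c * n1) * Real.exp (-(c * n))) * T := by gcongr
      _ = Real.exp (c * n1) * T * Real.exp (-(c * n)) := by ring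
      _ ≤ _ := by
        gcongr
        exact le_max_left _ _
  · have hsub : {t : ℝ | 0 ≤ t ∧ t ≤ T ∧ ∃ m : ℕ, n ≤ m ∧ t ∈ E m} ⊆
        ⋃ j : ℕ, {t : ℝ | 0 ≤ t ∧ t ≤ T ∧ t ∈ E (n + j)} := by
      rintro t ⟨h1, h2, m, hm, h3⟩
      rw [mem_iUnion]
      refine ⟨m - n, h1, h2, ?_⟩
      rw [Nat.add_sub_cancel' hm]
      exact h3
    refine (measure_mono hsub).trans ((measure_iUnion_le _).trans ?_)
    have h4 : ∀ j : ℕ, volume {t : ℝ | 0 ≤ t ∧ t ≤ T ∧ t ∈ E (n + j)} ≤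
        ENNReal.ofReal (4 * C * T * Real.exp (-(c * n)) * Real.exp (-c) ^ j) := by
      intro j
      refine (step2 (n + j) (by omega) T hT).trans (le_of_eq ?_)
      congr 1
      rw [← Real.exp_nat_mul, mul_assoc (4 * C * T), ← Real.exp_add]
      congr 2
      push_cast
      ring
    refine (ENNReal.tsum_le_tsum h4).trans ?_
    have hs : Summable fun j : ℕ => Real.exp (-c) ^ j := summable_geometric_of_lt_one he0.le he
    rw [← ENNReal.ofReal_tsum_of_nonneg (fun j => by positivity) (hs.mul_left _), tsum_mul_left,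
      tsum_geometric_of_lt_one he0.le he]
    apply ENNReal.ofReal_le_ofReal
    have h5 : 0 < 1 - Real.exp (-c) := by linarith
    calc 4 * C * T * Real.exp (-(c * n)) * (1 - Real.exp (-c))⁻¹
        = 4 * C / (1 - Real.exp (-c)) * T * Real.exp (-(c * n)) := by
          field_simp
      _ ≤ _ := by
        gcongr
        exact le_max_right _ _

end Pool.Agent.P8H15.LZ
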