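import Pool.Agent.P8H15.LZ.Win
import Pool.Agent.P8H15.LZ.Hd

/-!
# The Laguerre inequalities for newforms at almost all heights
-/

set_option autoImplicit false

namespace Pool.Agent.P8H15.LZ

open UpperHalfPlane hiding I
open MatrixGroups CongruenceSubgroup Filter Topology Complex MeasureTheory Set
open Pool.Agent.Y671.GL
open Pool.Agent.Y771.NF
open scoped ComplexConjugate
open Pool.Agent.TH803.LU (LC LC_scale LC_eq EE EE_diff sh abs_pos rh_iff_lag)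
open Pool.Agent.W355.UN (UL cond)

theorem LC_cmul {f : ℂ → ℂ} (hf : Differentiable ℂ f) (c : ℂ) (n : ℕ) :
    LC (fun u => c * f u) n = ‖c‖ ^ 2 * LC f n := by
  have e : EE (fun u => c * f u) = fun z => ((‖c‖ ^ 2 : ℝ) : ℂ) * EE f z := by
    funext z
    unfold EE
    rw [map_mul]
    have : c * conj c = ((‖c‖ ^ 2 : ℝ) : ℂ) := by rw [Complex.mul_conj, Complex.normSq_eq_norm_sq]
    rw [← this]
    ring
  have h1 : iteratedDeriv (2 * n) (fun z => ((‖c‖ ^ 2 : ℝ) : ℂ) * EE f z) 0 =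
      ((‖c‖ ^ 2 : ℝ) : ℂ) * iteratedDeriv (2 * n) (EE f) 0 := by
    have h2 : ContDiff ℂ (2 * n : ℕ) (EE f) := (EE_diff hf).contDiff
    exact iteratedDeriv_const_mul _ h2.contDiffAt
  unfold LC
  rw [e, h1, Complex.re_ofReal_mul]
  ring

variable {N : ℕ} [NeZero N] {k : ℕ} {f : CuspForm (Gamma0 N : Subgroup (GL (Fin 2) ℝ)) (k : ℤ)} {ε : ℝ}

/-- the coefficient of `y ^ (2 n)` in `|Λ(k/2 + i t + y)|²` -/
noncomputable def lag (f : CuspForm (Gamma0 N : Subgroup (GL (Fin 2) ℝ)) (k : ℤ)) (n : ℕ) (t : ℝ) : ℝ :=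
  LC (fun v : ℂ => Lam f ((k : ℂ) / 2 + I * t + v)) n

theorem LC_Xf (hk : 1 ≤ k) (hf : W388.IsNewf N k f ε) (u : ℂ) (n : ℕ) (t : ℝ) :
    LC (fun v : ℂ => Xf f u (I * t + v)) n = ‖u‖ ^ 2 * lag f n t := by
  have e : (fun v : ℂ => Xf f u (I * t + v)) = fun v : ℂ => u * Lam f ((k : ℂ) / 2 + I * t + v) := by
    funext v
    unfold Xf
    rw [add_assoc]
  rw [e]
  exact LC_cmul ((Lam_diff hk hf).comp (by fun_prop : Differentiable ℂ fun v : ℂ => (k : ℂ) / 2 + I * t + v)) u n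

omit [NeZero N] in
theorem sh_Xf (u : ℂ) (t : ℝ) : sh (fun s => Xf f u (s - 1 / 2)) t = fun v : ℂ => Xf f u (I * t + v) := by
  funext v
  unfold sh
  simp only
  congr 1
  ring

/-- deterministic positivity -/
theorem det_pos (hk : 1 ≤ k) (hf : W388.IsNewf N k f ε) : ∃ (K0 : ℝ) (N0 : ℕ), 1 ≤ K0 ∧ ∀ n : ℕ, N0 ≤ n →
    ∀ t : ℝ, |t| ≤ Real.exp (n / K0) → 0 < lag f n t := by
  obtain ⟨u, hu, hue⟩ := exists_unit hf
  obtain ⟨Z, hFE, hL⟩ := exists_Z hk hf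
  obtain ⟨B, r, hUL⟩ := ul_of hk hf hu hue hFE hL
  obtain ⟨C, hCp, hmain⟩ := abs_pos (hUL.hB 1)
  have hN : (1 : ℝ) ≤ N := by exact_mod_cast Nat.one_le_iff_ne_zero.2 (NeZero.ne N)
  obtain ⟨D, hDd⟩ : ∃ D : ℝ, D = 2 + (Real.log N + 2 * Real.log (2 + k)) + 2 * Real.log 2 := ⟨_, rfl⟩
  refine ⟨max (4 * C) 1, ⌈2 * C * D⌉₊, le_max_right _ _, ?_⟩
  intro n hn t ht
  have hn' : 2 * C * D ≤ n := (Nat.le_ceil _).trans (by exact_mod_cast hn)
  have ht' : |t| ≤ Real.exp (n / (4 * C)) := by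
    refine ht.trans (Real.exp_le_exp.2 ?_)
    gcongr
    exact le_max_left _ _
  have h2 := cond_le (N := N) hk t
  have h3 : Real.log (1 + |t|) ≤ Real.log 2 + n / (4 * C) := by
    have h4 : 1 + |t| ≤ 2 * Real.exp (n / (4 * C)) := by
      have : 1 ≤ Real.exp (n / (4 * C)) := Real.one_le_exp (by positivity)
      linarith
    have h5 := Real.log_le_log (by positivity) h4
    rwa [Real.log_mul (by norm_num) (Real.exp_pos _).ne', Real.log_exp] at h5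
  have h6 : C * (((2 : ℕ) : ℝ) + Real.log (Pool.Agent.W355.UN.cond (N : ℝ) (muk k) t)) ≤ n := by
    have h7 : ((2 : ℕ) : ℝ) + Real.log (Pool.Agent.W355.UN.cond (N : ℝ) (muk k) t) ≤ D + 2 * (n / (4 * C)) := by
      rw [hDd]
      push_cast
      linarith
    calc _ ≤ C * (D + 2 * (n / (4 * C))) := mul_le_mul_of_nonneg_left h7 hCp.le
      _ = C * D + n / 2 := by field_simp; ring
      _ ≤ n := by linarith
  have h1 := hmain 2 (N : ℝ) 0 (muk k) _ _ hUL zero_le_one t n h6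
  rw [sh_Xf, LC_Xf hk hf] at h1
  have hu2 : 0 < ‖u‖ ^ 2 := by
    have := norm_pos_iff.2 hu
    positivity
  exact (mul_pos_iff_of_pos_left hu2).1 h1

/-- the criterion -/
theorem crit (hk : 1 ≤ k) (hf : W388.IsNewf N k f ε) :
    (∀ z : ℂ, Lam f ((k : ℂ) / 2 + I * z) = 0 → z.im = 0) ↔ ∀ (n : ℕ) (t : ℝ), 0 ≤ lag f n t := by
  obtain ⟨u, hu, hue⟩ := exists_unit hf
  obtain ⟨Z, hFE, hL⟩ := exists_Z hk hf
  obtain ⟨B, r, hUL⟩ := ul_of hk hf hu hue hFE hL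
  have hu2 : 0 < ‖u‖ ^ 2 := by
    have := norm_pos_iff.2 hu
    positivity
  have h1 := rh_iff_lag hUL
  have h2 : (∀ (n : ℕ) (t : ℝ), 0 ≤ LC (sh (fun s => Xf f u (s - 1 / 2)) t) n) ↔
      ∀ (n : ℕ) (t : ℝ), 0 ≤ lag f n t := by
    refine forall_congr' fun n => forall_congr' fun t => ?_
    rw [sh_Xf, LC_Xf hk hf]
    exact mul_nonneg_iff_of_pos_left hu2
  rw [← h2, ← h1]
  constructor
  · intro h s hs
    have h3 := h (-(I * (s - 1 / 2))) (by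
      have e : (k : ℂ) / 2 + I * (-(I * (s - 1 / 2))) = (k : ℂ) / 2 + (s - 1 / 2) := by
        linear_combination (-(s - 1 / 2)) * I_sq
      rw [e]
      have hs' : u * Lam f ((k : ℂ) / 2 + (s - 1 / 2)) = 0 := hs
      exact (mul_eq_zero.1 hs').resolve_left hu)
    simp at h3
    linarith
  · intro h z hz
    have h3 := h (1 / 2 + I * z) (by
      show u * Lam f ((k : ℂ) / 2 + (1 / 2 + I * z - 1 / 2)) = 0
      rw [add_sub_cancel_left, hz, mul_zero])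
    simp at h3
    linarith

/-- **The Laguerre inequalities hold at almost all heights.** -/
theorem almost (hk : 1 ≤ k) (hf : W388.IsNewf N k f ε) : ∃ c C : ℝ, 0 < c ∧ 0 < C ∧ ∀ (n : ℕ) (T : ℝ), 0 ≤ T →
    volume {t : ℝ | 0 ≤ t ∧ t ≤ T ∧ ∃ m : ℕ, n ≤ m ∧ lag f m t ≤ 0} ≤
      ENNReal.ofReal (C * T * Real.exp (-(c * n))) := by
  obtain ⟨u, H, Z, hu, hGG, hst, hA, hLw, hH⟩ := all_of hk hf
  have hu2 : 0 < ‖u‖ ^ 2 := by
    have := norm_pos_iff.2 hu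
    positivity
  obtain ⟨FT, hh, hD⟩ := hd_of (κ := 1) (by norm_num) (by norm_num) hGG hst hH
  obtain ⟨K0, N0, hK0, hdet⟩ := det_pos hk hf
  have hrel : ∀ (n : ℕ) (t : ℝ), LC (fun v : ℂ => Xf f u ((I * t + v) / ((2 * 1 : ℝ) : ℂ))) n =
      (1 / 2) ^ (2 * n) * (‖u‖ ^ 2 * lag f n (t / 2)) := by
    intro n t
    have e : (fun v : ℂ => Xf f u ((I * t + v) / ((2 * 1 : ℝ) : ℂ))) =
        fun v : ℂ => (fun w : ℂ => Xf f u (I * ((t / 2 : ℝ) : ℂ) + w)) (((1 / 2 : ℝ) : ℂ) * v) := by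
      funext v
      simp only
      congr 1
      push_cast
      ring
    have hsc := LC_scale (f := fun w : ℂ => Xf f u (I * ((t / 2 : ℝ) : ℂ) + w))
      ((hGG.cg.cf.diff).comp (by fun_prop : Differentiable ℂ fun w : ℂ => I * ((t / 2 : ℝ) : ℂ) + w)) (1 / 2) n
    rw [e]
    refine hsc.trans ?_
    rw [LC_Xf hk hf]
  have hiff : ∀ (n : ℕ) (t : ℝ), 0 < LC (fun v : ℂ => Xf f u ((I * t + v) / ((2 * 1 : ℝ) : ℂ))) n ↔
      0 < lag f n (t / 2) := by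
    intro n t
    rw [hrel, mul_pos_iff_of_pos_left (by positivity), mul_pos_iff_of_pos_left hu2]
  obtain ⟨c, C, T1, n1, hc, hC, hT1, hw1, hw2⟩ := window hD (K0 := K0) (N0 := N0) hK0 (by
    intro n hn t ht
    refine (hiff n t).2 (hdet n hn (t / 2) ?_)
    rw [abs_div, abs_of_pos (by norm_num : (0 : ℝ) < 2)]
    have := abs_nonneg t
    linarith)
  obtain ⟨C', hC', hmain⟩ := dyadic hc hC hT1 hw1 hw2
  refine ⟨c, C', hc, hC', ?_⟩
  intro n T hT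
  have h1 : volume {t : ℝ | 0 ≤ t ∧ t ≤ T ∧ ∃ m : ℕ, n ≤ m ∧ lag f m t ≤ 0} ≤
      ENNReal.ofReal (1 / 2) * volume {t : ℝ | 0 ≤ t ∧ t ≤ 2 * T ∧ ∃ m : ℕ, n ≤ m ∧
        t ∈ {t : ℝ | ¬ 0 < LC (fun v : ℂ => Xf f u ((I * t + v) / ((2 * 1 : ℝ) : ℂ))) m}} := by
    apply vol_scale (by norm_num)
    rintro t ⟨h2, h3, m, h4, h5⟩
    refine ⟨by positivity, by linarith, m, h4, ?_⟩
    show ¬ 0 < LC (fun v : ℂ => Xf f u ((I * ((t / (1 / 2) : ℝ) : ℂ) + v) / ((2 * 1 : ℝ) : ℂ))) m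
    rw [hiff]
    have : t / (1 / 2) / 2 = t := by ring
    rw [this]
    exact not_lt.2 h5
  refine h1.trans ?_
  have h2 := hmain n (2 * T) (by linarith)
  calc ENNReal.ofReal (1 / 2) * _ ≤ ENNReal.ofReal (1 / 2) *
        ENNReal.ofReal (C' * (2 * T) * Real.exp (-(c * n))) := by gcongr
    _ = ENNReal.ofReal (C' * T * Real.exp (-(c * n))) := by
      rw [← ENNReal.ofReal_mul (by norm_num)]
      congr 1
      ring

/-- the coefficients through derivatives of real functions -/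
theorem lag_eq (hk : 1 ≤ k) (hf : W388.IsNewf N k f ε) (n : ℕ) (t : ℝ) :
    lag f n t = iteratedDeriv (2 * n) (fun y : ℝ => ‖Lam f ((k : ℂ) / 2 + I * (t + y * I))‖ ^ 2) 0 /
      ((2 * n).factorial : ℝ) := by
  have hd : Differentiable ℂ fun v : ℂ => Lam f ((k : ℂ) / 2 + I * t + v) :=
    (Lam_diff hk hf).comp (by fun_prop)
  have h1 := LC_scale hd (-1) n
  have h2 : (-1 : ℝ) ^ (2 * n) = 1 := by rw [pow_mul]; norm_num
  rw [h2, one_mul] at h1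
  unfold lag
  have h3 := LC_eq (f := fun v : ℂ => Lam f ((k : ℂ) / 2 + I * t + ((-1 : ℝ) : ℂ) * v))
    (hd.comp (by fun_prop : Differentiable ℂ fun v : ℂ => ((-1 : ℝ) : ℂ) * v)) n
  rw [← h1, h3]
  congr 2
  funext y
  congr 3
  push_cast
  linear_combination (-(y : ℂ)) * I_sq

end Pool.Agent.P8H15.LZ
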