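import Pool.Agent.P8H15.LZ.Loc
import Pool.Agent.P8H15.LZ.Meas

/-!
# The Laguerre inequalities at almost all heights
-/

set_option autoImplicit false

namespace Pool.Agent.P8H15.LZ

open Complex Filter Topology MeasureTheory Set
open scoped ComplexConjugate
open Pool.Agent.H24R2.JP (Om)
open Pool.Agent.H24R2.DZ (ra NN)
open Pool.Agent.Y671.LD (FarOK HD)
open Pool.Agent.TH803.LU (LC LC_scale FE0)

/-- windows -/
theorem window {B : ℝ} {F : ℂ → ℂ} {FT : ℝ → ℂ → ℂ} {h : ℝ → ℝ} (hD : HD B F FT h) {K0 : ℝ} {N0 : ℕ}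
    (hK0 : 1 ≤ K0) (hdet : ∀ n : ℕ, N0 ≤ n → ∀ t : ℝ, |t| ≤ Real.exp (n / K0) →
      0 < LC (fun u => F (I * t + u)) n) :
    ∃ (c C T1 : ℝ) (n1 : ℕ), 0 < c ∧ 0 < C ∧ 1 ≤ T1 ∧
      (∀ n : ℕ, n1 ≤ n → ∀ T : ℝ, T1 ≤ T →
        volume {t : ℝ | T / 2 ≤ t ∧ t ≤ T ∧ t ∈ {t : ℝ | ¬ 0 < LC (fun u => F (I * t + u)) n}} ≤
          ENNReal.ofReal (C * T * Real.exp (-(c * n)))) ∧
      (∀ n : ℕ, n1 ≤ n → ∀ t : ℝ, 0 ≤ t → t ≤ T1 → t ∉ {t : ℝ | ¬ 0 < LC (fun u => F (I * t + u)) n}) := by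
  obtain ⟨η, a0, hη, ha0, Hnn⟩ := nn_pos
  obtain ⟨c1, C1, a1, Ta, hc1, hC1, ha1, hTa, Hgood⟩ := hD.good η hη
  obtain ⟨R, ε0, η2, Tb, hR, hε0, hη2, hTb, Hfar⟩ := far_pos hD (g := 1 / 200) (K := 8 * K0) (by norm_num)
    (by norm_num) (by linarith)
  obtain ⟨c2, C2, Tc, hc2, hC2, hTc, Htop⟩ := hD.top R ε0 η2 hR hε0 hη2
  obtain ⟨T1, hT1⟩ : ∃ T1 : ℝ, T1 = max (max Ta (2 * Tb)) (max Tc 4) := ⟨_, rfl⟩
  have hT1a : Ta ≤ T1 := by rw [hT1]; exact (le_max_left _ _).trans (le_max_left _ _)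
  have hT1b : 2 * Tb ≤ T1 := by rw [hT1]; exact (le_max_right _ _).trans (le_max_left _ _)
  have hT1c : Tc ≤ T1 := by rw [hT1]; exact (le_max_left _ _).trans (le_max_right _ _)
  have hT14 : 4 ≤ T1 := by rw [hT1]; exact (le_max_right _ _).trans (le_max_right _ _)
  obtain ⟨n1, hn1⟩ : ∃ n1 : ℕ, n1 = max N0 (max ⌈a0⌉₊ (max ⌈a1⌉₊ ⌈K0 * Real.log T1⌉₊)) := ⟨_, rfl⟩
  have hn1N : N0 ≤ n1 := by rw [hn1]; exact le_max_left _ _
  have hn1a : ⌈a0⌉₊ ≤ n1 := by rw [hn1]; exact (le_max_left _ _).trans (le_max_right _ _)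
  have hn1b : ⌈a1⌉₊ ≤ n1 := by
    rw [hn1]; exact (le_max_left _ _).trans ((le_max_right _ _).trans (le_max_right _ _))
  have hn1c : ⌈K0 * Real.log T1⌉₊ ≤ n1 := by
    rw [hn1]; exact (le_max_right _ _).trans ((le_max_right _ _).trans (le_max_right _ _))
  have hK00 : 0 < K0 := by linarith
  obtain ⟨c, hcd⟩ : ∃ c : ℝ, c = min c1 (c2 / (2 * K0)) := ⟨_, rfl⟩
  have hc : 0 < c := by rw [hcd]; exact lt_min hc1 (by positivity)
  have hcc1 : c ≤ c1 := by rw [hcd]; exact min_le_left _ _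
  have hcc2 : c * (2 * K0) ≤ c2 := by
    have : c ≤ c2 / (2 * K0) := by rw [hcd]; exact min_le_right _ _
    rwa [le_div_iff₀ (by positivity)] at this
  have hle : ∀ {a : ℝ} {n : ℕ}, ⌈a⌉₊ ≤ n1 → n1 ≤ n → a ≤ n := fun {a n} h1 h2 =>
    (Nat.le_ceil a).trans (by exact_mod_cast h1.trans h2)
  refine ⟨c, C1 + C2, T1, n1, hc, by positivity, by linarith, ?_, ?_⟩
  · intro n hn T hT
    have hTp : 0 < T := by linarith
    have hlT : 0 < Real.log T := Real.log_pos (by linarith)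
    have hE := Real.exp_pos (-(c * n))
    rcases le_or_gt (n : ℝ) (Real.log T / 200) with hA | hA
    · have hsub : {t : ℝ | T / 2 ≤ t ∧ t ≤ T ∧ t ∈ {t : ℝ | ¬ 0 < LC (fun u => F (I * t + u)) n}} ⊆
          {t0 : ℝ | T / 2 ≤ t0 ∧ t0 ≤ 3 * T ∧ ¬ NN (n : ℝ) η (fun z => F (I * t0 + ra T n * z))} := by
        rintro t ⟨h1, h2, h3⟩
        refine ⟨h1, by linarith, fun hNN => h3 ?_⟩
        have h4 := Hnn n _ (hle hn1a hn) hNN
        have h5 := LC_scale (f := fun u => F (I * t + u)) (Pool.Agent.Y46.LD.fdiff hD.diff t) (ra T n) n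
        rw [h5] at h4
        have hn0 : (0 : ℝ) < n := by
          have : a0 ≤ n := hle hn1a hn
          linarith
        have h6 : 0 < ra T n := by
          unfold ra
          positivity
        exact (mul_pos_iff_of_pos_left (by positivity)).1 h4
      refine (measure_mono hsub).trans ((Hgood T n (hT1a.trans hT) (hle hn1b hn) hA).trans ?_)
      apply ENNReal.ofReal_le_ofReal
      have h7 : Real.exp (-(c1 * n)) ≤ Real.exp (-(c * n)) := by
        apply Real.exp_le_exp.2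
        have : c * n ≤ c1 * n := by gcongr
        linarith
      calc C1 * T * Real.exp (-(c1 * n)) ≤ C1 * T * Real.exp (-(c * n)) := by gcongr
        _ ≤ _ := by
          have : 0 ≤ C2 * T * Real.exp (-(c * n)) := by positivity
          linarith
    rcases le_or_gt (n : ℝ) (2 * K0 * Real.log T) with hB | hB
    · have hsub : {t : ℝ | T / 2 ≤ t ∧ t ≤ T ∧ t ∈ {t : ℝ | ¬ 0 < LC (fun u => F (I * t + u)) n}} ⊆
          {t : ℝ | T / 2 ≤ t ∧ t ≤ 3 * T ∧ ¬ FarOK F R ε0 η2 t} := by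
        rintro t ⟨h1, h2, h3⟩
        refine ⟨h1, by linarith, fun hF => h3 ?_⟩
        have htp : 0 < t := by linarith
        have hOm : Om t = Real.log t / 2 := rfl
        have hl1 : Real.log t ≤ Real.log T := Real.log_le_log htp h2
        have hl2 : Real.log T / 2 ≤ Real.log t := by
          have h4 : Real.log (T / 2) ≤ Real.log t := Real.log_le_log (by positivity) h1
          rw [Real.log_div hTp.ne' (by norm_num)] at h4
          have h5 : 2 * Real.log 2 ≤ Real.log T := by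
            have h6 : Real.log 4 ≤ Real.log T := Real.log_le_log (by norm_num) (by linarith)
            have h7 : Real.log 4 = 2 * Real.log 2 := by
              rw [show (4 : ℝ) = 2 ^ 2 by norm_num, Real.log_pow]
              norm_num
            linarith
          linarith
        refine Hfar t n (by linarith) hF ?_ ?_
        · rw [hOm]
          linarith
        · rw [hOm]
          have : 8 * K0 * (Real.log T / 2 / 2) ≤ 8 * K0 * (Real.log t / 2) := by gcongr
          linarith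
      refine (measure_mono hsub).trans ((Htop T (hT1c.trans hT)).trans ?_)
      apply ENNReal.ofReal_le_ofReal
      have h7 : T ^ (1 - c2) = T * Real.exp (-(c2 * Real.log T)) := by
        rw [Real.rpow_sub hTp, Real.rpow_one, Real.rpow_def_of_pos hTp, div_eq_mul_inv, ← Real.exp_neg]
        congr 3
        ring
      have h8 : Real.exp (-(c2 * Real.log T)) ≤ Real.exp (-(c * n)) := by
        apply Real.exp_le_exp.2
        have h9 : c * n ≤ c * (2 * K0 * Real.log T) := by gcongr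
        have h10 : c * (2 * K0) * Real.log T ≤ c2 * Real.log T := by gcongr
        linarith
      rw [h7]
      calc C2 * (T * Real.exp (-(c2 * Real.log T))) ≤ C2 * (T * Real.exp (-(c * n))) := by gcongr
        _ ≤ _ := by
          have : 0 ≤ C1 * T * Real.exp (-(c * n)) := by positivity
          linarith
    · have hsub : {t : ℝ | T / 2 ≤ t ∧ t ≤ T ∧ t ∈ {t : ℝ | ¬ 0 < LC (fun u => F (I * t + u)) n}} = ∅ := by
        rw [Set.eq_empty_iff_forall_notMem]
        rintro t ⟨h1, h2, h3⟩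
        refine h3 (hdet n (hn1N.trans hn) t ?_)
        rw [abs_of_nonneg (by linarith)]
        refine h2.trans ?_
        rw [← Real.log_le_iff_le_exp hTp, le_div_iff₀ hK00]
        nlinarith
      rw [hsub]
      simp
  · intro n hn t h1 h2 h3
    refine h3 (hdet n (hn1N.trans hn) t ?_)
    rw [abs_of_nonneg h1]
    refine h2.trans ?_
    rw [← Real.log_le_iff_le_exp (by linarith), le_div_iff₀ hK00]
    have := hle hn1c hn
    linarith

end Pool.Agent.P8H15.LZ
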